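import Pool.Agent.H9.KA.Stmts

/-!
# Additional side information
-/

set_option autoImplicit false

namespace Pool.KA

open Finset Real
open Pool.Agent.H49.Ent Pool.Agent.H32.Dense Pool.STK

/-- **Additional side information**: the deficit of the time increases at most by the
information which the time has about it. -/
theorem cnd_thm : CNDStmt := by
  intro m J F κ z e e' he h
  have hp := F.isLaw.nonneg
  have c1 : CH F.p (fun ω => (F.T ω, z ω)) (fun ω => (F.l ω, F.Z ω)) =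
      CH F.p z (fun ω => (F.l ω, F.Z ω)) +
        CH F.p F.T (fun ω => (z ω, (F.l ω, F.Z ω))) :=
    CH_chain hp F.T z (fun ω => (F.l ω, F.Z ω))
  have c2 : CH F.p (fun ω => (z ω, F.T ω)) (fun ω => (F.l ω, F.Z ω)) =
      CH F.p F.T (fun ω => (F.l ω, F.Z ω)) +
        CH F.p z (fun ω => (F.T ω, (F.l ω, F.Z ω))) :=
    CH_chain hp z F.T (fun ω => (F.l ω, F.Z ω))
  have c3 : CH F.p (fun ω => (F.T ω, z ω)) (fun ω => (F.l ω, F.Z ω)) =
      CH F.p (fun ω => (z ω, F.T ω)) (fun ω => (F.l ω, F.Z ω)) := by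
    refine CH_congr hp ?_ ?_ (fun _ _ _ _ h => h) (fun _ _ _ _ h => h)
    · intro ω ω' _ _ hh
      have := Prod.ext_iff.1 (Prod.ext_iff.1 hh).1
      exact Prod.ext this.2 this.1
    · intro ω ω' _ _ hh
      have := Prod.ext_iff.1 (Prod.ext_iff.1 hh).1
      exact Prod.ext this.2 this.1
  have c4 : CH F.p F.T (fun ω => (z ω, (F.l ω, F.Z ω))) =
      CH F.p F.T (fun ω => (F.l ω, (z ω, F.Z ω))) := by
    refine CH_congr hp ?_ ?_ ?_ ?_
    · intro ω ω' _ _ hh
      exact (Prod.ext_iff.1 hh).1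
    · intro ω ω' _ _ hh
      exact (Prod.ext_iff.1 hh).1
    · intro ω ω' _ _ hh
      have h1 := Prod.ext_iff.1 hh
      have h2 := Prod.ext_iff.1 h1.2
      exact Prod.ext h2.1 (Prod.ext h1.1 h2.2)
    · intro ω ω' _ _ hh
      have h1 := Prod.ext_iff.1 hh
      have h2 := Prod.ext_iff.1 h1.2
      exact Prod.ext h2.1 (Prod.ext h1.1 h2.2)
  unfold Fam.Tm at he
  change (J : ℝ) * Real.log 2 - (e + e') ≤ CH F.p F.T (fun ω => (F.l ω, (z ω, F.Z ω)))
  linarith

end Pool.KA
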