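import Pool.Agent.H9.KA.Stmts

/-!
# Size of the zone
-/

set_option autoImplicit false

namespace Pool.KA

open Finset Real
open Pool.Agent.H49.Ent Pool.Agent.H32.Dense Pool.STK

/-- **Size of the zone**, and of the surplus at its beginning. -/
theorem zon_thm (hG : GROStmt) : ZONStmt := by
  intro m
  obtain ⟨C, hC, h⟩ := hG m
  refine ⟨C, hC, ?_⟩
  intro J w μ lam τ σ η F hJ hw hμ h1
  have hV := ((h J F).2.1 w J hw).2
  refine ⟨fun h2 => ?_, ?_⟩
  · unfold Fam.G at h1 h2
    nlinarith [h1, h2]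
  · unfold Fam.G at h1
    nlinarith [h1, hV, hC]

end Pool.KA
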